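import Pool.Agent.Run7.h882.Rank

/-!
# Acyclic edge colourings of degenerate graphs

Every `d`-degenerate graph `G` with `d ≥ 1` has an acyclic proper edge colouring with
`Δ(G) + 5000000000 d` colours.
-/

set_option autoImplicit false

namespace Pool.Agent.Results.MP_5cda12_co.Degenerate

/-- If every nonempty set `S` of vertices of the finite graph `G` has a member with at most `d`
neighbours in `S`, where `d ≥ 1`, then `G` has a proper edge colouring with `Δ(G) + 5000000000 d`
colours in which every cycle has at least three colours. -/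
theorem result :
    ∀ (V : Type) [Fintype V] [DecidableEq V] (G : SimpleGraph V) [DecidableRel G.Adj] (d : ℕ),
      1 ≤ d →
      (∀ S : Finset V, S.Nonempty → ∃ v ∈ S, (S.filter (fun w => G.Adj v w)).card ≤ d) →
      ∃ c : V → V → Fin (G.maxDegree + 5000000000 * d),
        (∀ u v : V, c u v = c v u) ∧
        (∀ u v w : V, G.Adj u v → G.Adj u w → v ≠ w → c u v ≠ c u w) ∧
        (∀ (u : V) (p : G.Walk u u), p.IsCycle →
            3 ≤ (p.darts.map (fun d => c d.toProd.1 d.toProd.2)).toFinset.card) := by
  intro V _ _ G _ d hd h
  obtain ⟨c, hc⟩ := Run7.h882.degen_thm d hd h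
  exact ⟨c, hc.symm, hc.proper, hc.acyclic⟩

end Pool.Agent.Results.MP_5cda12_co.Degenerate
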