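import Pool.Agent.Run7.h882.Rank

/-!
# Acyclic edge colourings with `Δ` colours

If `G` is `d`-degenerate with `10000000000 d ≤ Δ(G)`, the vertices of degree larger than
`Δ(G) - 20000000 d` are pairwise nonadjacent and every vertex has at most `d` neighbours of this kind,
then `G` has an acyclic proper edge colouring with `Δ(G)` colours.
-/

set_option autoImplicit false

namespace Pool.Agent.Results.MP_5cda12_co.SparseHigh

/-- Let `G` be a finite `d`-degenerate graph with maximum degree `Δ`, where `1 ≤ d` and
`10000000000 d ≤ Δ`.  If no two vertices of degree larger than `Δ - 20000000 d` are adjacent and every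
vertex has at most `d` neighbours of degree larger than `Δ - 20000000 d`, then `G` has a proper edge
colouring with `Δ` colours in which every cycle has at least three colours. -/
theorem result :
    ∀ (V : Type) [Fintype V] [DecidableEq V] (G : SimpleGraph V) [DecidableRel G.Adj] (d : ℕ),
      1 ≤ d → 10000000000 * d ≤ G.maxDegree →
      (∀ S : Finset V, S.Nonempty → ∃ v ∈ S, (S.filter (fun w => G.Adj v w)).card ≤ d) →
      (∀ u v : V, G.Adj u v → G.degree u + 20000000 * d ≤ G.maxDegree ∨
        G.degree v + 20000000 * d ≤ G.maxDegree) →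
      (∀ v : V, (Finset.univ.filter (fun w => G.Adj v w ∧
        G.maxDegree < G.degree w + 20000000 * d)).card ≤ d) →
      ∃ c : V → V → Fin G.maxDegree,
        (∀ u v : V, c u v = c v u) ∧
        (∀ u v w : V, G.Adj u v → G.Adj u w → v ≠ w → c u v ≠ c u w) ∧
        (∀ (u : V) (p : G.Walk u u), p.IsCycle →
            3 ≤ (p.darts.map (fun d => c d.toProd.1 d.toProd.2)).toFinset.card) := by
  intro V _ _ G _ d hd hk h hind hfew
  obtain ⟨c, hc⟩ := Run7.h882.degen_exact d hd h hk hind hfew
  exact ⟨c, hc.symm, hc.proper, hc.acyclic⟩

end Pool.Agent.Results.MP_5cda12_co.SparseHigh
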